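import Pool.Agent.H78.LieMain

set_option autoImplicit false
universe u

namespace Pool.Agent.Results.MP_2fcc64_al.EveryField

/-- `(A i)` is a free product decomposition of the subalgebra `T` of `L`: the `A i` are nonzero
subalgebras contained in `T`, and `T` with the inclusions is their coproduct, i.e. every family of
Lie algebra homomorphisms `A i → M` extends uniquely to a homomorphism `T → M`. -/
def IsFreeProductDecomposition {k L : Type u} [Field k] [LieRing L] [LieAlgebra k L] {I : Type u}
    (A : I → LieSubalgebra k L) (T : LieSubalgebra k L) : Prop :=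
  (∀ i, A i ≠ ⊥) ∧ ∃ h : ∀ i, A i ≤ T,
    ∀ (M : Type u) [LieRing M] [LieAlgebra k M] (f : ∀ i, ↥(A i) →ₗ⁅k⁆ M),
      ∃! g : ↥T →ₗ⁅k⁆ M, ∀ i, g.comp (LieSubalgebra.inclusion (h i)) = f i

/-- `(B j)` refines `(A i)` along `p : J → I`: for every `i` the family of all `B j` with
`p j = i` is a free product decomposition of `A i`. -/
def Refines {k L : Type u} [Field k] [LieRing L] [LieAlgebra k L] {I J : Type u}
    (B : J → LieSubalgebra k L) (A : I → LieSubalgebra k L) (p : J → I) : Prop :=
  ∀ i : I, IsFreeProductDecomposition (fun j : {j : J // p j = i} => B j.1) (A i)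

/-- Over every field there is a Lie algebra with a free product decomposition into two factors and
a free product decomposition into three factors, without isomorphic refinements. -/
theorem result (k : Type u) [Field k] :
    ∃ (L : Type u) (_ : LieRing L) (_ : LieAlgebra k L)
      (A : ULift.{u} (Fin 2) → LieSubalgebra k L) (A' : ULift.{u} (Fin 3) → LieSubalgebra k L),
      IsFreeProductDecomposition A ⊤ ∧ IsFreeProductDecomposition A' ⊤ ∧
      ∀ (J : Type u) (B : J → LieSubalgebra k L) (p : J → ULift.{u} (Fin 2))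
        (J' : Type u) (B' : J' → LieSubalgebra k L) (p' : J' → ULift.{u} (Fin 3)),
        Refines B A p → Refines B' A' p' →
          ¬ ∃ σ : J ≃ J', ∀ j : J, Nonempty (↥(B j) ≃ₗ⁅k⁆ ↥(B' (σ j))) := by
  refine ⟨Pool.Agent.H78.L0 k, inferInstance, inferInstance, Pool.Agent.H78.A1 k,
    Pool.Agent.H78.A2' k, Pool.Agent.H78.fp1 k, Pool.Agent.H78.fp2 k, ?_⟩
  intro J B p J' B' p' h h' hσ
  exact Pool.Agent.H78.no_ref k ⟨J, B, p, J', B', p', h, h', hσ⟩

end Pool.Agent.Results.MP_2fcc64_al.EveryField
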